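import Pool.Agent.Q300.Tree.Types

/-!
# MP_c850b7_lc, Q1: isotypic finitely generated algebras which are not isomorphic

The answer is negative: there is a (countable, unary) algebraic signature and there are two
isotypic algebras of this signature which are generated by one element and are not isomorphic.
-/

set_option autoImplicit false

open FirstOrder FirstOrder.Language

namespace Pool.Agent.Results.MP_c850b7_lc.NotIsomorphic

/-- Every type of a finite tuple which is realized in `M` is realized in `N`. -/
def TypesIn (L : FirstOrder.Language.{0, 0}) (M N : Type) [L.Structure M] [L.Structure N] : Prop :=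
  ∀ (n : ℕ) (a : Fin n → M), ∃ b : Fin n → N,
    ∀ φ : L.Formula (Fin n), φ.Realize a ↔ φ.Realize b

/-- Isotypic algebras: the same types of finite tuples are realized. -/
def Isotypic (L : FirstOrder.Language.{0, 0}) (M N : Type) [L.Structure M] [L.Structure N] :
    Prop :=
  TypesIn L M N ∧ TypesIn L N M

/-- There are a signature (with operation symbols only, all of them unary) and isotypic algebras
`H₁` and `H₂` of it, each generated by one element, which are not isomorphic. -/
theorem result : ∃ (L : FirstOrder.Language.{0, 0}) (H₁ H₂ : Type) (_ : L.Structure H₁)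
    (_ : L.Structure H₂), L.IsAlgebraic ∧ (∀ n, n ≠ 1 → IsEmpty (L.Functions n)) ∧
      Isotypic L H₁ H₂ ∧ (∃ a : H₁, Substructure.closure L {a} = ⊤) ∧
      (∃ a : H₂, Substructure.closure L {a} = ⊤) ∧ IsEmpty (H₁ ≃[L] H₂) := by
  refine ⟨Q300.Tree.Lang, Q300.Tree.S (Set.Ici 0), Q300.Tree.S (Set.Ici 1), inferInstance, inferInstance,
    inferInstance, ?_, ⟨?_, ?_⟩, Q300.Tree.cyclic_Ici 0, Q300.Tree.cyclic_Ici 1, Q300.Tree.not_equiv⟩
  · intro n hn
    constructor
    intro f
    cases f <;> exact hn rfl
  · intro n a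
    refine Q300.Tree.types_of_shift (isUpperSet_Ici 0) ⟨0, Set.self_mem_Ici⟩ (isUpperSet_Ici 1)
      ⟨1, Set.self_mem_Ici⟩ a 1 fun i => ?_
    refine Q300.Tree.shift_mem ?_ (a i).2
    intro j hj
    have h3 : 0 ≤ j := hj
    exact Set.mem_Ici.2 (by omega)
  · intro n a
    refine Q300.Tree.types_of_shift (isUpperSet_Ici 1) ⟨1, Set.self_mem_Ici⟩ (isUpperSet_Ici 0)
      ⟨0, Set.self_mem_Ici⟩ a 0 fun i => ?_
    refine Q300.Tree.shift_mem ?_ (a i).2
    intro j hj
    have h3 : 1 ≤ j := hj
    exact Set.mem_Ici.2 (by omega)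

end Pool.Agent.Results.MP_c850b7_lc.NotIsomorphic
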